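import Mathlib
import Pool.Agent.H604R2.SW.Final

/-!
# From the Gaussian mean width inequality to convex hulls in the unit ball
-/

set_option autoImplicit false

namespace Pool.Agent.W95.MeanWidth

open MeasureTheory Matrix Finset Filter Topology Set ProbabilityTheory
open scoped BigOperators
open Pool.Agent.H604R2.SW

/-- the support function of a set -/
noncomputable def supp {d : ℕ} (K : Set (EuclideanSpace ℝ (Fin d)))
    (u : EuclideanSpace ℝ (Fin d)) : ℝ := sSup ((fun x => inner ℝ x u) '' K)

theorem supp_hull {d : ℕ} (v : Fin (d + 1) → EuclideanSpace ℝ (Fin d))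
    (u : EuclideanSpace ℝ (Fin d)) :
    supp (convexHull ℝ (Set.range v)) u = S12723_f v u := by
  unfold supp
  apply le_antisymm
  · apply csSup_le
    · exact ((convexHull_nonempty_iff.2 (Set.range_nonempty v))).image _
    · rintro _ ⟨x, hx, rfl⟩
      have hs : convexHull ℝ (Set.range v) ⊆ {x | inner ℝ x u ≤ S12723_f v u} := by
        apply convexHull_min
        · rintro _ ⟨i, rfl⟩
          exact S12723_le v u i
        · have h1 : IsLinearMap ℝ (fun x : EuclideanSpace ℝ (Fin d) => inner ℝ x u) :=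
            ⟨fun a b => inner_add_left _ _ _, fun c a => by
              simp only [real_inner_smul_left, smul_eq_mul]⟩
          exact convex_halfSpace_le h1 _
      exact hs hx
  · have hb : BddAbove ((fun x => inner ℝ x u) '' (convexHull ℝ (Set.range v))) := by
      refine ⟨S12723_f v u, ?_⟩
      rintro _ ⟨x, hx, rfl⟩
      have hs : convexHull ℝ (Set.range v) ⊆ {x | inner ℝ x u ≤ S12723_f v u} := by
        apply convexHull_min
        · rintro _ ⟨i, rfl⟩
          exact S12723_le v u i
        · have h1 : IsLinearMap ℝ (fun x : EuclideanSpace ℝ (Fin d) => inner ℝ x u) :=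
            ⟨fun a b => inner_add_left _ _ _, fun c a => by
              simp only [real_inner_smul_left, smul_eq_mul]⟩
          exact convex_halfSpace_le h1 _
      exact hs hx
    refine ciSup_le fun i => ?_
    exact le_csSup hb ⟨v i, subset_convexHull ℝ _ ⟨i, rfl⟩, rfl⟩

theorem supp_neg {d : ℕ} (v : Fin (d + 1) → EuclideanSpace ℝ (Fin d))
    (u : EuclideanSpace ℝ (Fin d)) :
    S12723_f v (-u) = S12723_f (fun i => -v i) u := by
  unfold S12723_f
  congr 1
  funext i
  rw [inner_neg_right, inner_neg_left]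

/-- the sphere measure -/
noncomputable abbrev sph (d : ℕ) : Measure (Metric.sphere (0 : EuclideanSpace ℝ (Fin d)) 1) :=
  Measure.toSphere (volume : Measure (EuclideanSpace ℝ (Fin d)))

theorem sph_int {d : ℕ} (v : Fin (d + 1) → EuclideanSpace ℝ (Fin d)) :
    Integrable (fun u : Metric.sphere (0 : EuclideanSpace ℝ (Fin d)) 1 =>
      S12723_f v (u : EuclideanSpace ℝ (Fin d))) (sph d) := by
  have hc : Continuous (fun u : Metric.sphere (0 : EuclideanSpace ℝ (Fin d)) 1 =>
      S12723_f v (u : EuclideanSpace ℝ (Fin d))) := (S12723_cont v).comp continuous_subtype_val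
  haveI : CompactSpace (Metric.sphere (0 : EuclideanSpace ℝ (Fin d)) 1) :=
    isCompact_iff_compactSpace.1 (isCompact_sphere _ _)
  exact hc.integrable_of_hasCompactSupport (HasCompactSupport.of_compactSpace _)

/-- the inequality for unit vectors, all `d ≥ 1` -/
theorem unit_le (n : ℕ) (x y : Fin (n + 1 + 1) → EuclideanSpace ℝ (Fin (n + 1)))
    (hx : ∀ i, ‖x i‖ = 1) (hy : ∀ i, ‖y i‖ = 1)
    (hxy : ∀ i j, i ≠ j → inner ℝ (y i) (y j) = -1 / ((n : ℝ) + 1)) :
    ∫ u : Metric.sphere (0 : EuclideanSpace ℝ (Fin (n + 1))) 1,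
        S12723_f x (u : EuclideanSpace ℝ (Fin (n + 1))) ∂(sph (n + 1)) ≤
      ∫ u : Metric.sphere (0 : EuclideanSpace ℝ (Fin (n + 1))) 1,
        S12723_f y (u : EuclideanSpace ℝ (Fin (n + 1))) ∂(sph (n + 1)) := by
  obtain ⟨c, hc, c', hc', hf⟩ := hom (n + 1) (by omega)
  have h3 := f_max n x y hx hy hxy
  have e1 := (hf _ (S12723_cont x) fun t z ht => S12723_hom x t z ht).1
  have e2 := (hf _ (S12723_cont y) fun t z ht => S12723_hom y t z ht).1
  unfold S12723_f at e1 e2
  rw [e1, e2] at h3
  exact le_of_mul_le_mul_left h3 hc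

/-- the inequality for vectors of the ball -/
theorem ball_le (n : ℕ) (v w : Fin (n + 1 + 1) → EuclideanSpace ℝ (Fin (n + 1)))
    (hv : ∀ i, ‖v i‖ ≤ 1) (hw : ∀ i, ‖w i‖ = 1)
    (hww : ∀ i j, i ≠ j → inner ℝ (w i) (w j) = -1 / ((n : ℝ) + 1)) :
    ∫ u : Metric.sphere (0 : EuclideanSpace ℝ (Fin (n + 1))) 1,
        S12723_f v (u : EuclideanSpace ℝ (Fin (n + 1))) ∂(sph (n + 1)) ≤
      ∫ u : Metric.sphere (0 : EuclideanSpace ℝ (Fin (n + 1))) 1,
        S12723_f w (u : EuclideanSpace ℝ (Fin (n + 1))) ∂(sph (n + 1)) := by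
  have key : ∀ (S : Finset (Fin (n + 1 + 1))) (v : Fin (n + 1 + 1) → EuclideanSpace ℝ (Fin (n + 1))),
      (∀ i, ‖v i‖ ≤ 1) → (∀ i, i ∉ S → ‖v i‖ = 1) →
      ∫ u : Metric.sphere (0 : EuclideanSpace ℝ (Fin (n + 1))) 1,
        S12723_f v (u : EuclideanSpace ℝ (Fin (n + 1))) ∂(sph (n + 1)) ≤
      ∫ u : Metric.sphere (0 : EuclideanSpace ℝ (Fin (n + 1))) 1,
        S12723_f w (u : EuclideanSpace ℝ (Fin (n + 1))) ∂(sph (n + 1)) := by
    intro S
    induction S using Finset.induction_on with
    | empty =>
      exact fun v _ hv => unit_le n v w (fun i => hv i (Finset.notMem_empty i)) hw hww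
    | insert i S hi ih =>
      intro v hv hvS
      obtain ⟨u, hu, huv⟩ : ∃ u : EuclideanSpace ℝ (Fin (n + 1)), ‖u‖ = 1 ∧ v i = ‖v i‖ • u := by
        by_cases h0 : v i = 0
        · refine ⟨EuclideanSpace.single ⟨0, by omega⟩ 1, by simp, ?_⟩
          rw [h0, norm_zero, zero_smul]
        · refine ⟨(‖v i‖⁻¹) • v i, ?_, ?_⟩
          · rw [norm_smul, norm_inv, norm_norm, inv_mul_cancel₀ (norm_ne_zero_iff.2 h0)]
          · rw [smul_smul, mul_inv_cancel₀ (norm_ne_zero_iff.2 h0), one_smul]
      have hn := hv i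
      have hn0 := norm_nonneg (v i)
      have hcomb : v i = ((1 + ‖v i‖) / 2) • u + (1 - (1 + ‖v i‖) / 2) • (-u) := by
        rw [smul_neg, ← sub_eq_add_neg, ← sub_smul]
        conv_lhs => rw [huv]
        congr 1
        ring
      have hup : ∀ a : EuclideanSpace ℝ (Fin (n + 1)), ‖a‖ = 1 →
          ∫ x : Metric.sphere (0 : EuclideanSpace ℝ (Fin (n + 1))) 1,
            S12723_f (Function.update v i a) (x : EuclideanSpace ℝ (Fin (n + 1))) ∂(sph (n + 1)) ≤
          ∫ u : Metric.sphere (0 : EuclideanSpace ℝ (Fin (n + 1))) 1,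
            S12723_f w (u : EuclideanSpace ℝ (Fin (n + 1))) ∂(sph (n + 1)) := by
        intro a ha
        refine ih _ (fun j => ?_) fun j hj => ?_
        · by_cases hji : j = i
          · subst hji
            rw [Function.update_self, ha]
          · rw [Function.update_of_ne hji]
            exact hv j
        · by_cases hji : j = i
          · subst hji
            rw [Function.update_self, ha]
          · rw [Function.update_of_ne hji]
            exact hvS j fun h => by
              rcases Finset.mem_insert.1 h with h | h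
              · exact hji h
              · exact hj h
      have h3 : ∫ x : Metric.sphere (0 : EuclideanSpace ℝ (Fin (n + 1))) 1,
            S12723_f v (x : EuclideanSpace ℝ (Fin (n + 1))) ∂(sph (n + 1)) ≤
          ∫ x : Metric.sphere (0 : EuclideanSpace ℝ (Fin (n + 1))) 1,
            ((1 + ‖v i‖) / 2 *
                S12723_f (Function.update v i u) (x : EuclideanSpace ℝ (Fin (n + 1))) +
              (1 - (1 + ‖v i‖) / 2) *
                S12723_f (Function.update v i (-u)) (x : EuclideanSpace ℝ (Fin (n + 1))))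
              ∂(sph (n + 1)) :=
        integral_mono (sph_int v)
          (((sph_int _).const_mul _).add ((sph_int _).const_mul _))
          fun x => S12723_conv v i u (-u) _ (by linarith) (by linarith) hcomb x
      rw [integral_add ((sph_int _).const_mul _) ((sph_int _).const_mul _),
        integral_const_mul, integral_const_mul] at h3
      have h4 := mul_le_mul_of_nonneg_left (hup u hu)
        (show 0 ≤ (1 + ‖v i‖) / 2 by linarith)
      have h5 := mul_le_mul_of_nonneg_left (hup (-u) (by rw [norm_neg, hu]))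
        (show 0 ≤ 1 - (1 + ‖v i‖) / 2 by linarith)
      linarith
  exact key Finset.univ v hv fun i hi => absurd (Finset.mem_univ i) hi

/-- The inner products of an inscribed regular simplex. -/
theorem regular_inner (n : ℕ) (w : Fin (n + 1 + 1) → EuclideanSpace ℝ (Fin (n + 1)))
    (hw : ∀ i, ‖w i‖ = 1) (r : ℝ) (hr : 0 < r) (hww : ∀ i j, i ≠ j → dist (w i) (w j) = r) :
    ∀ i j, i ≠ j → inner ℝ (w i) (w j) = -1 / ((n : ℝ) + 1) := by
  -- common inner product
  have hc : ∀ i j, i ≠ j → inner ℝ (w i) (w j) = 1 - r ^ 2 / 2 := by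
    intro i j hij
    have h := hww i j hij
    rw [dist_eq_norm] at h
    have h2 := norm_sub_sq_real (w i) (w j)
    rw [h, hw i, hw j] at h2
    linarith
  -- a linear dependence
  have hdep : ¬ LinearIndependent ℝ w := by
    intro hli
    have := hli.fintype_card_le_finrank
    simp at this
  rw [Fintype.not_linearIndependent_iff] at hdep
  obtain ⟨a, ha, k, hk⟩ := hdep
  have h1 : ∀ j, a j * (r ^ 2 / 2) + (1 - r ^ 2 / 2) * ∑ i, a i = 0 := by
    intro j
    have h := congrArg (fun z => inner ℝ z (w j)) ha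
    simp only [sum_inner, real_inner_smul_left, inner_zero_left] at h
    have h2 : ∀ i, a i * inner ℝ (w i) (w j) =
        (1 - r ^ 2 / 2) * a i + (if i = j then a j * (r ^ 2 / 2) else 0) := by
      intro i
      by_cases hij : i = j
      · subst hij
        rw [real_inner_self_eq_norm_sq, hw i, if_pos rfl]
        ring
      · rw [hc i j hij, if_neg hij]
        ring
    rw [Finset.sum_congr rfl fun i _ => h2 i, Finset.sum_add_distrib, ← Finset.mul_sum,
      Finset.sum_ite_eq' Finset.univ j, if_pos (Finset.mem_univ j)] at h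
    linarith
  have hr2 : 0 < r ^ 2 / 2 := by positivity
  have h2 : ∀ j, a j = a k := by
    intro j
    have e1 := h1 j
    have e2 := h1 k
    have : (a j - a k) * (r ^ 2 / 2) = 0 := by linarith
    rcases mul_eq_zero.1 this with h | h
    · linarith
    · exact absurd h hr2.ne'
  have h3 := h1 k
  rw [Finset.sum_congr rfl fun i _ => h2 i] at h3
  simp only [Finset.sum_const, Finset.card_univ, Fintype.card_fin, nsmul_eq_mul] at h3
  push_cast at h3
  have h4 : a k * (r ^ 2 / 2 + (1 - r ^ 2 / 2) * ((n : ℝ) + 1 + 1)) = 0 := by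
    rw [← h3]; ring
  have h5 : r ^ 2 / 2 + (1 - r ^ 2 / 2) * ((n : ℝ) + 1 + 1) = 0 := by
    rcases mul_eq_zero.1 h4 with h | h
    · exact absurd h hk
    · exact h
  intro i j hij
  rw [hc i j hij, eq_div_iff (by positivity)]
  nlinarith

end Pool.Agent.W95.MeanWidth
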