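import Pool.Agent.H999R2.KSat.CV5
import Pool.Agent.H999R2.KSat.SA
import Pool.Agent.H999R2.KSat.SM
import Pool.Agent.H999R2.KSat.BA
import Pool.Agent.H999R2.KSat.TL3

/-!
# Random k-SAT: the threshold exists, with a polynomial bound for the upper side
-/

set_option autoImplicit false

namespace Pool.Agent.W95.KSatQuant

open Finset Filter Pool.Agent.H999R2.KSat

/-- convergence of the medians with a rate from one side -/
theorem median_rate {κ : ℕ} {p : ℕ → ℕ → ℝ} (h : Hyp κ p) (hκ : 2 ≤ κ) :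
    ∃ L C : ℝ, 0 ≤ L ∧ 0 < C ∧ Tendsto (fun n : ℕ => (Mx p n : ℝ) / n) atTop (nhds L) ∧
      ∃ n0 : ℕ, ∀ n : ℕ, n0 ≤ n →
        (Mx p n : ℝ) ≤ L * n + C * (n : ℝ) ^ (1 - (1 : ℝ) / (2 * κ + 3)) := by
  set c : ℝ := (1 : ℝ) / (2 * κ + 3) with hc
  have hcp : 0 < c := by positivity
  obtain ⟨Λ, hΛ, hfb⟩ := h.first_bound (1 / 2) (by norm_num)
  obtain ⟨C1, hC1, n1, hB⟩ := h.stepB hκ
  obtain ⟨C2, hC2, n2, hC⟩ := h.stepC hκ
  have hr0 : ∀ n : ℕ, 0 ≤ (Mx p n : ℝ) / n := fun n => by positivity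
  set r : ℕ → ℝ := fun n => (Mx p n : ℝ) / n with hr
  have hh2 : ∀ N1 N2 : ℕ, max n1 n2 ≤ N1 → max n1 n2 ≤ N2 → N1 + N2 ≤ 4 * N1 → N1 + N2 ≤ 4 * N2 →
      min (r N1) (r N2) - max C1 C2 * ((N1 + N2 : ℕ) : ℝ) ^ (-c) ≤ r (N1 + N2) := by
    intro N1 N2 h1 h2 h3 h4
    have h5 := hB N1 N2 (le_trans (le_max_left _ _) h1) (le_trans (le_max_left _ _) h2) h3 h4
    have h6 : (0 : ℝ) ≤ ((N1 + N2 : ℕ) : ℝ) ^ (-c) := by positivity
    have h7 : C1 * ((N1 + N2 : ℕ) : ℝ) ^ (-c) ≤ max C1 C2 * ((N1 + N2 : ℕ) : ℝ) ^ (-c) :=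
      mul_le_mul_of_nonneg_right (le_max_left _ _) h6
    show min ((Mx p N1 : ℝ) / N1) ((Mx p N2 : ℝ) / N2) - _ ≤ _
    linarith
  obtain ⟨L, hL⟩ := seq_lemma r c (max C1 C2) Λ (max n1 n2) hcp
    (lt_max_of_lt_left hC1) hr0
    (fun n => by
      rcases Nat.eq_zero_or_pos n with rfl | hn
      · simp [hr, hΛ.le]
      · have hn' : (0 : ℝ) < n := by exact_mod_cast hn
        show (Mx p n : ℝ) / n ≤ Λ
        rw [div_le_iff₀ hn']
        exact hfb n _ hn (h.Mx_spec n hn).1)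
    hh2
    (fun N h1 => by
      have h5 := hC N (le_trans (le_max_right _ _) h1)
      have h6 : (0 : ℝ) ≤ (N : ℝ) ^ (-c) := by positivity
      have h7 : C2 * (N : ℝ) ^ (-c) ≤ max C1 C2 * (N : ℝ) ^ (-c) :=
        mul_le_mul_of_nonneg_right (le_max_right _ _) h6
      show (Mx p N : ℝ) / N - _ ≤ _
      linarith)
  have hL0 : 0 ≤ L := ge_of_tendsto' hL hr0
  have h43 : 0 < (4 / 3 : ℝ) ^ c - 1 := by
    have := Real.one_lt_rpow (by norm_num : (1 : ℝ) < 4 / 3) hcp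
    linarith
  set C3 : ℝ := max C1 C2 / ((4 / 3 : ℝ) ^ c - 1) with hC3
  have hC3pos : 0 < C3 := div_pos (lt_max_of_lt_left hC1) h43
  refine ⟨L, C3, hL0, hC3pos, hL, max (max n1 n2) 1, fun n hn => ?_⟩
  have hn1 : 1 ≤ n := (le_max_right _ _).trans hn
  have hn' : (0 : ℝ) < n := by exact_mod_cast hn1
  have hm := sq_mult r c (max C1 C2) (max n1 n2) hcp (lt_max_of_lt_left hC1) hh2 n
    ((le_max_left _ _).trans hn) hn1
  have hlim : Tendsto (fun a : ℕ => r (a * n)) atTop (nhds L) := by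
    apply hL.comp
    rw [tendsto_atTop]
    intro b
    filter_upwards [eventually_ge_atTop b] with a ha
    calc b ≤ a := ha
      _ = a * 1 := (mul_one a).symm
      _ ≤ a * n := Nat.mul_le_mul_left _ hn1
  have hle : r n - C3 * (n : ℝ) ^ (-c) ≤ L := by
    apply ge_of_tendsto hlim
    filter_upwards [eventually_ge_atTop 1] with a ha
    refine le_trans ?_ (hm a ha)
    have ha' : 0 ≤ (a : ℝ) ^ (-c) := by positivity
    have h1 : 0 ≤ C3 * (n : ℝ) ^ (-c) := by positivity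
    have h2 : C3 * (n : ℝ) ^ (-c) * (1 - (a : ℝ) ^ (-c)) ≤ C3 * (n : ℝ) ^ (-c) * 1 :=
      mul_le_mul_of_nonneg_left (by linarith) h1
    linarith
  have e : (n : ℝ) ^ (1 - c) = n * (n : ℝ) ^ (-c) := by
    rw [sub_eq_add_neg, Real.rpow_add hn', Real.rpow_one]
  have h3 : (Mx p n : ℝ) / n ≤ L + C3 * (n : ℝ) ^ (-c) := by
    have : r n = (Mx p n : ℝ) / n := rfl
    linarith
  rw [div_le_iff₀ hn'] at h3
  rw [e]
  calc (Mx p n : ℝ) ≤ (L + C3 * (n : ℝ) ^ (-c)) * n := h3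
    _ = L * n + C3 * (n * (n : ℝ) ^ (-c)) := by ring

/-- both sides of the threshold, for the abstract probability -/
theorem quant {κ : ℕ} {p : ℕ → ℕ → ℝ} (h : Hyp κ p) (hκ : 2 ≤ κ) :
    ∃ L C : ℝ, 0 ≤ L ∧ 0 < C ∧ ∀ δ : ℝ, 0 < δ → ∃ n0 : ℕ, ∀ n m : ℕ, n0 ≤ n →
      ((m : ℝ) ≤ (L - δ) * n → 1 - δ ≤ p n m) ∧
      (L * n + C * (n : ℝ) ^ (1 - (1 : ℝ) / (2 * κ + 3)) ≤ m → p n m ≤ δ) := by
  obtain ⟨L, C, hL0, hC, hL, n1, h1⟩ := median_rate h hκ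
  set c : ℝ := (1 : ℝ) / (2 * κ + 3) with hc
  have hcp : 0 < c := by positivity
  refine ⟨L, C + 2, hL0, by linarith, fun δ hδ => ?_⟩
  obtain ⟨n2, hA'⟩ := h.stepA' hκ δ hδ
  obtain ⟨n3, hA⟩ := h.stepA hκ δ hδ
  have ev := (hL.eventually (lt_mem_nhds (show L - δ / 2 < L by linarith))).and
    (cv5_rpow c (δ / 2) hcp (by positivity))
  obtain ⟨n4, h4⟩ := eventually_atTop.1 ev
  refine ⟨max (max n1 n2) (max (max n3 n4) 1), fun n m hn => ?_⟩
  have hn1 : n1 ≤ n := by omega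
  have hn2 : n2 ≤ n := by omega
  have hn3 : n3 ≤ n := by omega
  have hn4 : n4 ≤ n := by omega
  have hn0 : 1 ≤ n := by omega
  have hn' : (0 : ℝ) < n := by exact_mod_cast hn0
  obtain ⟨h5, h6⟩ := h4 n hn4
  constructor
  · intro hm
    apply hA' n m hn2
    have h7 : (L - δ / 2) * n < Mx p n := by rwa [lt_div_iff₀ hn'] at h5
    have h8 : (n : ℝ) ^ (1 - c) ≤ δ / 2 * n := h6
    calc (m : ℝ) + (n : ℝ) ^ (1 - c) ≤ (L - δ) * n + δ / 2 * n := add_le_add hm h8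
      _ = (L - δ / 2) * n := by ring
      _ ≤ Mx p n := h7.le
  · intro hm
    by_contra hcon
    push Not at hcon
    have h7 := hA n m hn3 hcon.le
    have h8 := h1 n hn1
    have h9 : 0 < (n : ℝ) ^ (1 - c) := Real.rpow_pos_of_pos hn' _
    have h10 : (m : ℝ) ≤ L * n + C * (n : ℝ) ^ (1 - c) + (n : ℝ) ^ (1 - c) := by linarith
    nlinarith

/-- the hypotheses hold for the satisfiability probability -/
theorem hyp_ps (κ : ℕ) : Hyp κ (fun n m => ps n (κ + 1) m) where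
  h0 := fun n => ps_zero n (κ + 1)
  hnn := fun n m => ps_nonneg n (κ + 1) m
  hanti := fun n m => ps_succ_le n (κ + 1) m
  hfm := ⟨1 - 1 / 2 ^ (κ + 1), by
      have : (1 : ℝ) / 2 ^ (κ + 1) ≤ 1 := by
        rw [div_le_one (by positivity)]
        exact one_le_pow₀ (by norm_num)
      linarith, by
      have : (0 : ℝ) < 1 / 2 ^ (κ + 1) := by positivity
      linarith, fun n m hn => first_moment n (κ + 1) m hn⟩
  hsharp := fun Λ => sharp' κ Λ
  hone := fun n m hn => super_one n (κ + 1) m hn (by omega)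
  htwo := fun N1 N2 m m1 m2 d h1 h2 hd hdm hm1 hm2 =>
    super_two N1 N2 (κ + 1) m m1 m2 d h1 h2 (by omega) hd hdm hm1 hm2

end Pool.Agent.W95.KSatQuant
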